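import Pool.Agent.Y122.TQ.Defs
import Pool.Agent.H38R2.CG.PV
import Pool.Agent.H38R2.CG.LM2

/-!
# Project TQ, task PVJ: Pólya–Vinogradov for the Jacobi symbol modulo an odd non-square
-/

set_option autoImplicit false

namespace Pool.Agent.Y676.TQ

open Finset
open Pool.Agent.H38R2.CG
open Pool.Agent.H306R2.RZ (js)

theorem PVJ : Pool.Agent.Y122.TQ.S_PVJ := by
  refine ⟨4, by norm_num, ?_⟩
  intro k Y hodd hsq
  have hk0 : k ≠ 0 := by
    rintro rfl
    exact hsq ⟨0, rfl⟩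
  have hk1 : k ≠ 1 := by
    rintro rfl
    exact hsq ⟨1, rfl⟩
  haveI : NeZero k := ⟨hk0⟩
  have h := PVh.sum_le k (LM2h.jch k) (by omega) (LM2h.jch_ne_one k hodd hsq) Y
  have e : ∑ n ∈ Finset.Icc 1 Y, LM2h.jch k (n : ZMod k) =
      ((∑ d ∈ Finset.Icc 1 Y, js (d : ℤ) k : ℝ) : ℂ) := by
    push_cast
    refine Finset.sum_congr rfl fun n _ => ?_
    rw [LM2h.jch_apply]
    unfold js
    push_cast
    rfl
  rw [e, Complex.norm_real, Real.norm_eq_abs] at h
  exact h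

end Pool.Agent.Y676.TQ
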